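import Pool.Agent.H458.AR.Fld

/-! Part GDP of project AR (subtask 5413, for helper458). -/

set_option autoImplicit false

open IsDedekindDomain NumberField Matrix Polynomial
open scoped Classical

namespace Pool.Agent.H553.AR458

open Pool.Agent.N922.PQ Pool.Agent.H458.AR

/-- the norm form -/
def NN {R : Type} [CommRing R] (a b r s t : R) : R :=
  r * ((r - a * t) * (r - a * t) - (-(b * t) - a * s) * s) -
  (-(b * t)) * (s * (r - a * t) - (-(b * t) - a * s) * t) +
  (-(b * s)) * (s * s - (r - a * t) * t)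

theorem norm_formula {R S : Type} [CommRing R] [CommRing S] [Algebra R S]
    (bas : Module.Basis (Fin 3) R S) (ϑ : S) (hb : ∀ i, bas i = ϑ ^ (i : ℕ)) (a b : R)
    (h3 : ϑ ^ 3 = -(algebraMap R S a * ϑ) - algebraMap R S b) (r s t : R) :
    Algebra.norm R (algebraMap R S r + algebraMap R S s * ϑ + algebraMap R S t * ϑ ^ 2) =
      NN a b r s t := by
  classical
  rw [Algebra.norm_eq_matrix_det bas]
  have hM : Algebra.leftMulMatrix bas
      (algebraMap R S r + algebraMap R S s * ϑ + algebraMap R S t * ϑ ^ 2) =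
      !![r, -(b * t), -(b * s); s, r - a * t, -(b * t) - a * s; t, s, r - a * t] := by
    ext i j
    rw [Algebra.leftMulMatrix_eq_repr_mul]
    have h5 : (algebraMap R S r + algebraMap R S s * ϑ + algebraMap R S t * ϑ ^ 2) * bas j =
        ∑ k, (!![r, -(b * t), -(b * s); s, r - a * t, -(b * t) - a * s; t, s, r - a * t] :
          Matrix (Fin 3) (Fin 3) R) k j • bas k := by
      rw [Fin.sum_univ_three, hb, hb, hb, hb]
      simp only [Algebra.smul_def]
      fin_cases j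
      · simp
      · simp
        linear_combination (algebraMap R S t) * h3
      · simp
        linear_combination (algebraMap R S t * ϑ + algebraMap R S s) * h3
    rw [h5, Module.Basis.repr_sum_self]
  rw [hM, Matrix.det_fin_three]
  simp [NN]
  ring

/-- the twist -/
theorem NN_twist {R : Type} [CommRing R] (a b r s t D δ : R) (h : D * δ = 1) :
    NN (a * D ^ 2) (b * D ^ 3) r (s * δ) (t * δ ^ 2) = NN a b r s t := by
  unfold NN
  have e1 : a * D ^ 2 * (t * δ ^ 2) = a * t := by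
    linear_combination (a * t * (D * δ + 1)) * h
  have e2 : b * D ^ 3 * (t * δ ^ 2) = b * t * D := by
    linear_combination (b * t * D * (D * δ + 1)) * h
  have e3 : a * D ^ 2 * (s * δ) = a * s * D := by
    linear_combination (a * s * D) * h
  have e4 : b * D ^ 3 * (s * δ) = b * s * D ^ 2 := by
    linear_combination (b * s * D ^ 2) * h
  rw [e1, e2, e3, e4]
  have e5 : D ^ 2 * δ ^ 2 = 1 := by linear_combination (D * δ + 1) * h
  have e6 : D ^ 2 * δ ^ 3 = δ := by linear_combination δ * (D * δ + 1) * h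
  linear_combination (-r * (-(b * t) - a * s) * s + b * t * s * (r - a * t) * 1 + b * s * (r - a * t) * t) * h +
    (b * t * (b * t + a * s) * t) * e5 - (b * s ^ 3) * e5 +
    (D * δ * (r * t * b * s - a * t ^ 2 * b * s)) * h

/-- passing from `h''` to `h` -/
theorem passOn {R : Type} [CommRing R] (f h h'' G G' m g : R[X]) (h1 : f ∣ h * G ^ 2 - h'')
    (h2 : f ∣ G * G' - 1) (h3 : f ∣ m * h'' - g ^ 2) : f ∣ m * h - (g * G') ^ 2 := by
  have e : m * h - (g * G') ^ 2 = (G * G' - 1) * (-(1 + G * G') * (m * h)) +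
      (h * G ^ 2 - h'') * (m * G' ^ 2) + (m * h'' - g ^ 2) * G' ^ 2 := by ring
  rw [e]
  exact dvd_add (dvd_add (dvd_mul_of_dvd_left h2 _) (dvd_mul_of_dvd_left h1 _))
    (dvd_mul_of_dvd_left h3 _)

theorem cub_twist {L : Type} [Field L] [CharZero L] {a b : ℤ} {θ : L} (h : IsCub a b θ) (D : ℤ)
    (hD : D ≠ 0) : IsCub (a * D ^ 2) (b * D ^ 3) ((D : L) * θ) := by
  have hDL : (D : L) ≠ 0 := by exact_mod_cast hD
  refine ⟨?_, h.rank, fun x => ?_⟩
  · have := h.root
    push_cast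
    linear_combination (D : L) ^ 3 * this
  · obtain ⟨r, s, t, rfl⟩ := h.gen x
    refine ⟨r, s / D, t / D ^ 2, ?_⟩
    push_cast
    field_simp


theorem cub_monic {R : Type} [CommRing R] (A B : R) : (X ^ 3 + C A * X + C B : R[X]).Monic := by
  monicity!

theorem cub_deg {R : Type} [CommRing R] [Nontrivial R] (A B : R) :
    (X ^ 3 + C A * X + C B : R[X]).natDegree = 3 := by
  compute_degree!

theorem norm_mk {F : Type} [CommRing F] [Nontrivial F] (A B r s t : F) :
    Algebra.norm F (AdjoinRoot.mk (X ^ 3 + C A * X + C B : F[X])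
      (C r + C s * X + C t * X ^ 2)) = NN A B r s t := by
  have hm : (X ^ 3 + C A * X + C B : F[X]).Monic := cub_monic A B
  have hd : (X ^ 3 + C A * X + C B : F[X]).natDegree = 3 := cub_deg A B
  have hroot : AdjoinRoot.root (X ^ 3 + C A * X + C B : F[X]) ^ 3 =
      -(algebraMap F _ A * AdjoinRoot.root (X ^ 3 + C A * X + C B : F[X])) - algebraMap F _ B := by
    have h := AdjoinRoot.mk_self (f := (X ^ 3 + C A * X + C B : F[X]))
    simp only [map_add, map_mul, map_pow, AdjoinRoot.mk_X, AdjoinRoot.mk_C] at h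
    rw [AdjoinRoot.algebraMap_eq]
    linear_combination h
  have h := norm_formula ((AdjoinRoot.powerBasis' hm).basis.reindex (finCongr hd))
    (AdjoinRoot.root (X ^ 3 + C A * X + C B : F[X])) (by
      intro i
      rw [Module.Basis.reindex_apply, PowerBasis.coe_basis, AdjoinRoot.powerBasis'_gen]
      rfl) A B hroot r s t
  rw [← h]
  simp only [map_add, map_mul, map_pow, AdjoinRoot.mk_X, AdjoinRoot.mk_C,
    AdjoinRoot.algebraMap_eq]

theorem norm_cub {L : Type} [Field L] [CharZero L] {a b : ℤ} {θ : L} (h : IsCub a b θ)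
    (r s t : ℚ) : Algebra.norm ℚ ((r : L) + (s : L) * θ + (t : L) * θ ^ 2) =
      NN (a : ℚ) (b : ℚ) r s t := by
  have h1 := norm_formula h.basis θ (by
      intro i
      rw [h.basis_apply]
      fin_cases i <;> simp [Pool.Agent.N922.PQ.vec]) (a : ℚ) (b : ℚ) (by
      have := h.root
      simp only [eq_ratCast, Rat.cast_intCast]
      linear_combination this) r s t
  rw [← h1]
  simp only [eq_ratCast]

theorem comp_cub {R : Type} [CommRing R] (a b D δ : R) (h : D * δ = 1) :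
    (X ^ 3 + C a * X + C b : R[X]).comp (C δ * X) =
      C (δ ^ 3) * (X ^ 3 + C (a * D ^ 2) * X + C (b * D ^ 3)) := by
  have h1 : (C D : R[X]) * C δ = 1 := by rw [← C_mul, h, C_1]
  simp only [add_comp, mul_comp, pow_comp, X_comp, C_comp, C_mul, C_pow]
  linear_combination (-(C a * X * C δ * (C D * C δ + 1)) -
    C b * (C D ^ 2 * C δ ^ 2 + C D * C δ + 1)) * h1


/-- an integral representative of degree at most two -/
theorem rep (a b : ℤ) (h' : ℤ[X]) : ∃ (r s t : ℤ) (q : ℤ[X]),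
    h' = (X ^ 3 + C a * X + C b) * q + (C r + C s * X + C t * X ^ 2) := by
  have hm : (X ^ 3 + C a * X + C b : ℤ[X]).Monic := cub_monic a b
  have hd : (X ^ 3 + C a * X + C b : ℤ[X]).natDegree = 3 := cub_deg a b
  have h1 := Polynomial.degree_modByMonic_lt h' hm
  have hdeg : (h' %ₘ (X ^ 3 + C a * X + C b)).degree ≤ 2 := by
    rw [Polynomial.degree_eq_natDegree hm.ne_zero, hd] at h1
    rw [Polynomial.degree_le_iff_coeff_zero]
    intro m hm2
    refine Polynomial.coeff_eq_zero_of_degree_lt (h1.trans_le ?_)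
    have h5 : 2 < m := by exact_mod_cast hm2
    exact_mod_cast h5
  refine ⟨(h' %ₘ (X ^ 3 + C a * X + C b)).coeff 0, (h' %ₘ (X ^ 3 + C a * X + C b)).coeff 1,
    (h' %ₘ (X ^ 3 + C a * X + C b)).coeff 2, h' /ₘ (X ^ 3 + C a * X + C b), ?_⟩
  have h2 := Polynomial.eq_quadratic_of_degree_le_two hdeg
  have h3 := Polynomial.modByMonic_add_div h' (X ^ 3 + C a * X + C b)
  conv_lhs => rw [← h3]
  rw [add_comm]
  congr 1
  conv_lhs => rw [h2]
  ring

theorem no_triple {a b D : ℤ} {p : ℕ} [Fact p.Prime] (hpD : ¬ (p : ℤ) ∣ D)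
    (hsq : Squarefree (dsc a b)) :
    ¬ (((a * D ^ 2 : ℤ) : ZMod p) = 0 ∧ ((b * D ^ 3 : ℤ) : ZMod p) = 0) := by
  rintro ⟨h1, h2⟩
  have hp : Prime (p : ℤ) := Nat.prime_iff_prime_int.1 (Fact.out : p.Prime)
  rw [ZMod.intCast_zmod_eq_zero_iff_dvd] at h1 h2
  have ha : (p : ℤ) ∣ a := (hp.dvd_or_dvd h1).resolve_right fun h => hpD (hp.dvd_of_dvd_pow h)
  have hb : (p : ℤ) ∣ b := (hp.dvd_or_dvd h2).resolve_right fun h => hpD (hp.dvd_of_dvd_pow h)
  obtain ⟨x, rfl⟩ := ha
  obtain ⟨y, rfl⟩ := hb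
  have h3 : (p : ℤ) * p ∣ dsc (p * x) (p * y) := ⟨4 * p * x ^ 3 + 27 * y ^ 2, by
    unfold dsc; ring⟩
  exact hp.not_isUnit (hsq _ h3)

theorem irr_or {a b D : ℤ} {p : ℕ} [Fact p.Prime] (δ' : ZMod p) (hδ' : (D : ZMod p) * δ' = 1)
    (hp : 1000 ≤ p ∨ ∀ z : ℤ, ¬ (p : ℤ) ∣ z ^ 3 + a * z + b) :
    1000 ≤ p ∨ Irreducible (X ^ 3 + C ((a * D ^ 2 : ℤ) : ZMod p) * X +
      C ((b * D ^ 3 : ℤ) : ZMod p) : (ZMod p)[X]) := by
  rcases hp with hp | hp
  · exact Or.inl hp
  right
  rw [(cub_monic _ _).irreducible_iff_roots_eq_zero_of_degree_le_three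
    (by rw [cub_deg]; norm_num) (by rw [cub_deg])]
  rw [Multiset.eq_zero_iff_forall_notMem]
  intro z hz
  rw [Polynomial.mem_roots (cub_monic _ _).ne_zero, Polynomial.IsRoot.def] at hz
  simp only [eval_add, eval_mul, eval_pow, eval_X, eval_C] at hz
  have h1 : (z * δ') ^ 3 + (a : ZMod p) * (z * δ') + (b : ZMod p) = 0 := by
    push_cast at hz
    have e1 : (D : ZMod p) ^ 2 * δ' ^ 2 = 1 := by linear_combination ((D : ZMod p) * δ' + 1) * hδ'
    linear_combination δ' ^ 3 * hz - ((a : ZMod p) * z * δ') * e1 -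
      (b : ZMod p) * ((D : ZMod p) * δ') * e1 - (b : ZMod p) * hδ'
  refine hp ((z * δ').cast : ℤ) ?_
  rw [← ZMod.intCast_zmod_eq_zero_iff_dvd]
  push_cast
  exact h1


/-- the norm of the representative modulo `p` is a square -/
theorem norm_sq {L : Type} [Field L] [CharZero L] {a b D : ℤ} {θ : L} (hc : IsCub a b θ)
    (α γ : L) (h' : ℤ[X]) (h1 : α * γ ^ 2 = aeval θ h') (hN : IsSquare (Algebra.norm ℚ α))
    (p : ℕ) [Fact p.Prime] (δ' : ZMod p) (hδ' : (D : ZMod p) * δ' = 1) :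
    IsSquare (Algebra.norm (ZMod p) (AdjoinRoot.mk (X ^ 3 + C ((a * D ^ 2 : ℤ) : ZMod p) * X +
      C ((b * D ^ 3 : ℤ) : ZMod p) : (ZMod p)[X])
      ((h'.map (Int.castRingHom (ZMod p))).comp (C δ' * X)))) := by
  obtain ⟨r, s, t, q, hq⟩ := rep a b h'
  -- the norm over the integers
  have h2 : IsSquare (NN a b r s t) := by
    rw [← Rat.isSquare_intCast_iff]
    have h3 : aeval θ h' = ((r : ℚ) : L) + ((s : ℚ) : L) * θ + ((t : ℚ) : L) * θ ^ 2 := by
      rw [hq]
      have h4 := hc.root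
      simp only [map_add, map_mul, map_pow, aeval_X, aeval_C, algebraMap_int_eq,
        Int.coe_castRingHom, Rat.cast_intCast]
      rw [h4, zero_mul, zero_add]
    have h4 := norm_cub hc (r : ℚ) (s : ℚ) (t : ℚ)
    rw [← h3, ← h1, map_mul, map_pow] at h4
    have h5 : ((NN a b r s t : ℤ) : ℚ) = NN (a : ℚ) (b : ℚ) r s t := by
      unfold NN
      push_cast
      ring
    rw [h5, ← h4]
    exact hN.mul (IsSquare.sq _)
  have h3 : IsSquare ((NN a b r s t : ℤ) : ZMod p) := h2.map (Int.castRingHom (ZMod p))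
  have h5 : ((NN a b r s t : ℤ) : ZMod p) = NN (a : ZMod p) (b : ZMod p) r s t := by
    unfold NN
    push_cast
    ring
  have h6 : AdjoinRoot.mk (X ^ 3 + C ((a * D ^ 2 : ℤ) : ZMod p) * X +
      C ((b * D ^ 3 : ℤ) : ZMod p) : (ZMod p)[X])
      ((h'.map (Int.castRingHom (ZMod p))).comp (C δ' * X)) =
      AdjoinRoot.mk (X ^ 3 + C ((a * D ^ 2 : ℤ) : ZMod p) * X +
      C ((b * D ^ 3 : ℤ) : ZMod p) : (ZMod p)[X])
      (C (r : ZMod p) + C ((s : ZMod p) * δ') * X + C ((t : ZMod p) * δ' ^ 2) * X ^ 2) := by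
    rw [AdjoinRoot.mk_eq_mk, hq]
    have h7 := comp_cub (a : ZMod p) (b : ZMod p) D δ' hδ'
    have h8 : ((((X ^ 3 + C a * X + C b) * q + (C r + C s * X + C t * X ^ 2) : ℤ[X])).map
        (Int.castRingHom (ZMod p))).comp (C δ' * X) =
        (X ^ 3 + C (a : ZMod p) * X + C (b : ZMod p) : (ZMod p)[X]).comp (C δ' * X) *
          (q.map (Int.castRingHom (ZMod p))).comp (C δ' * X) +
        (C (r : ZMod p) + C ((s : ZMod p) * δ') * X + C ((t : ZMod p) * δ' ^ 2) * X ^ 2) := by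
      simp only [Polynomial.map_add, Polynomial.map_mul, Polynomial.map_pow, Polynomial.map_X,
        Polynomial.map_C, add_comp, mul_comp, pow_comp, X_comp, C_comp, C_mul, C_pow,
        Int.coe_castRingHom]
      ring
    rw [h8, h7, add_sub_cancel_right]
    push_cast
    exact dvd_mul_of_dvd_left (dvd_mul_left _ _) _
  rw [h6, norm_mk]
  push_cast
  rw [NN_twist _ _ _ _ _ _ _ hδ', ← h5]
  exact h3


theorem coprime_lin {F : Type} [Field F] (f : F[X]) (x : F) (hx : f.eval x ≠ 0) :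
    IsCoprime (C x - X) f := by
  have h1 : IsCoprime (X - C x) f := by
    rw [(Polynomial.irreducible_X_sub_C x).coprime_iff_not_dvd, Polynomial.dvd_iff_isRoot]
    exact hx
  have h2 : (C x - X : F[X]) = -(X - C x) := by ring
  rw [h2]
  exact h1.neg_left

/-- the passage to `ℚ_p` -/
theorem toQ {L : Type} [Field L] [CharZero L] {a b D : ℤ} {θ : L} (hc : IsCub a b θ)
    (hD : D ≠ 0) (α γ : L) (hγ : γ ≠ 0) (h' : ℤ[X]) (h1 : α * γ ^ 2 = aeval θ h')
    (h : ℚ[X]) (hh : aeval ((D : L) * θ) h = α) (F : Type) [Field F] [CharZero F] :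
    ∃ G G' : F[X], ff F (a * D ^ 2) (b * D ^ 3) ∣ h.map (algebraMap ℚ F) * G ^ 2 -
      (h'.map (Int.castRingHom F)).comp (C (D : F)⁻¹ * X) ∧
      ff F (a * D ^ 2) (b * D ^ 3) ∣ G * G' - 1 := by
  have hcT := cub_twist hc D hD
  have hDL : (D : L) ≠ 0 := by exact_mod_cast hD
  obtain ⟨G, hG⟩ := hcT.exists_poly γ
  obtain ⟨G', hG'⟩ := hcT.exists_poly γ⁻¹
  have e1 : ff ℚ (a * D ^ 2) (b * D ^ 3) ∣ h * G ^ 2 -
      (h'.map (Int.castRingHom ℚ)).comp (C (D : ℚ)⁻¹ * X) := by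
    rw [← hcT.minpoly_eq]
    apply minpoly.dvd
    rw [map_sub, map_mul, map_pow, hh, hG, h1, aeval_comp]
    have e2 : aeval ((D : L) * θ) (C (D : ℚ)⁻¹ * X : ℚ[X]) = θ := by
      simp only [map_mul, aeval_C, aeval_X, eq_ratCast]
      push_cast
      field_simp
    rw [e2, ← algebraMap_int_eq, aeval_map_algebraMap, sub_self]
  have e2 : ff ℚ (a * D ^ 2) (b * D ^ 3) ∣ G * G' - 1 := by
    rw [← hcT.minpoly_eq]
    apply minpoly.dvd
    rw [map_sub, map_mul, hG, hG', map_one, mul_inv_cancel₀ hγ, sub_self]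
  refine ⟨G.map (algebraMap ℚ F), G'.map (algebraMap ℚ F), ?_, ?_⟩
  · have e3 := Polynomial.map_dvd (algebraMap ℚ F) e1
    rw [ff_map] at e3
    have e4 : (h * G ^ 2 - (h'.map (Int.castRingHom ℚ)).comp (C (D : ℚ)⁻¹ * X)).map
        (algebraMap ℚ F) = h.map (algebraMap ℚ F) * G.map (algebraMap ℚ F) ^ 2 -
        (h'.map (Int.castRingHom F)).comp (C (D : F)⁻¹ * X) := by
      rw [Polynomial.map_sub, Polynomial.map_mul, Polynomial.map_pow, Polynomial.map_comp,
        Polynomial.map_map, Polynomial.map_mul, Polynomial.map_C, Polynomial.map_X]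
      have e5 : (algebraMap ℚ F).comp (Int.castRingHom ℚ) = Int.castRingHom F :=
        RingHom.ext_int _ _
      have e6 : algebraMap ℚ F (D : ℚ)⁻¹ = (D : F)⁻¹ := by simp
      rw [e5, e6]
    rw [e4] at e3
    exact e3
  · have e3 := Polynomial.map_dvd (algebraMap ℚ F) e2
    rw [ff_map, Polynomial.map_sub, Polynomial.map_mul, Polynomial.map_one] at e3
    exact e3

theorem gdp (h1 : S_HNS) (h2 : S_FPT) (h3 : S_UNT) : S_GDP := by
  intro L O _ _ _ _ _ _ _ a b D θ hc hsq p _ hp2 hpD hp α hα hN hev h hh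
  have hD0 : D ≠ 0 := by rintro rfl; exact hpD (dvd_zero _)
  obtain ⟨γ, h', hγ, hγα, hcop⟩ := h3 L O a b θ hc hsq p α hα hev
  -- the inverse of `D`
  have hDu : IsUnit (D : ℤ_[p]) := by
    rw [PadicInt.isUnit_iff]
    by_contra hne
    have hlt : ‖(D : ℤ_[p])‖ < 1 := lt_of_le_of_ne (PadicInt.norm_le_one _) hne
    exact hpD ((PadicInt.norm_int_lt_one_iff_dvd D).1 hlt)
  obtain ⟨δ, hδ⟩ := hDu.exists_right_inv
  set φ : ℤ_[p] →+* ZMod p := PadicInt.toZMod with hφ
  set ι : ℤ_[p] →+* ℚ_[p] := PadicInt.Coe.ringHom with hι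
  have hιinj : Function.Injective ι := fun x y hxy => PadicInt.ext hxy
  set f : ℤ_[p][X] := X ^ 3 + C ((a * D ^ 2 : ℤ) : ℤ_[p]) * X + C ((b * D ^ 3 : ℤ) : ℤ_[p])
    with hf
  set H : ℤ_[p][X] := (h'.map (Int.castRingHom ℤ_[p])).comp (C δ * X) with hH
  have hδ' : (D : ZMod p) * φ δ = 1 := by
    have := congrArg φ hδ
    rwa [map_mul, map_intCast, map_one] at this
  have hδι : ι δ = (D : ℚ_[p])⁻¹ := by
    have := congrArg ι hδ
    rw [map_mul, map_intCast, map_one] at this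
    exact eq_inv_of_mul_eq_one_right this
  have hfm : f.Monic := cub_monic _ _
  have hfφ : f.map φ = X ^ 3 + C ((a * D ^ 2 : ℤ) : ZMod p) * X +
      C ((b * D ^ 3 : ℤ) : ZMod p) := by
    rw [hf]
    simp only [Polynomial.map_add, Polynomial.map_mul, Polynomial.map_pow, Polynomial.map_X,
      Polynomial.map_C, map_intCast φ]
  have hfι : f.map ι = ff ℚ_[p] (a * D ^ 2) (b * D ^ 3) := by
    rw [hf, ff]
    simp only [Polynomial.map_add, Polynomial.map_mul, Polynomial.map_pow, Polynomial.map_X,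
      Polynomial.map_C, map_intCast ι]
  have hHφ : H.map φ = (h'.map (Int.castRingHom (ZMod p))).comp (C (φ δ) * X) := by
    rw [hH, Polynomial.map_comp, Polynomial.map_map, Polynomial.map_mul, Polynomial.map_C,
      Polynomial.map_X]
    have e5 : φ.comp (Int.castRingHom ℤ_[p]) = Int.castRingHom (ZMod p) := RingHom.ext_int _ _
    rw [e5]
  have hHι : H.map ι = (h'.map (Int.castRingHom ℚ_[p])).comp (C (D : ℚ_[p])⁻¹ * X) := by
    rw [hH, Polynomial.map_comp, Polynomial.map_map, Polynomial.map_mul, Polynomial.map_C,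
      Polynomial.map_X, hδι]
    have e5 : ι.comp (Int.castRingHom ℤ_[p]) = Int.castRingHom ℚ_[p] := RingHom.ext_int _ _
    rw [e5]
  -- coprime
  have hcop' : IsCoprime (H.map φ) (f.map φ) := by
    obtain ⟨u, v, huv⟩ := hcop
    refine ⟨u.comp (C (φ δ) * X), v.comp (C (φ δ) * X) * C (φ δ ^ 3), ?_⟩
    have e1 := congrArg (fun q : (ZMod p)[X] => q.comp (C (φ δ) * X)) huv
    rw [Polynomial.add_comp, Polynomial.mul_comp, Polynomial.mul_comp, Polynomial.one_comp,
      comp_cub (a : ZMod p) (b : ZMod p) D (φ δ) hδ'] at e1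
    rw [hHφ, hfφ, ← e1]
    push_cast
    ring
  -- points modulo `p`
  have hpt := h2 p hp2 ((a * D ^ 2 : ℤ) : ZMod p) ((b * D ^ 3 : ℤ) : ZMod p)
    (no_triple hpD hsq) (irr_or (φ δ) hδ' hp) (H.map φ) (by rw [← hfφ]; exact hcop')
    (by rw [hHφ]; exact norm_sq hc α γ h' hγα hN p (φ δ) hδ')
  rw [← hfφ] at hpt
  obtain ⟨G, G', hG1, hG2⟩ := toQ hc hD0 α γ hγ h' hγα h hh ℚ_[p]
  rw [← hHι] at hG1
  rw [← hfι] at hG1 hG2
  have hsurj : Function.Surjective (Polynomial.map φ) :=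
    Polynomial.map_surjective φ (ZMod.ringHom_surjective φ)
  rcases hpt with ⟨g, hg⟩ | ⟨x, y, hy, hxy, g, hg⟩
  · left
    obtain ⟨g₀, rfl⟩ := hsurj g
    obtain ⟨g', hg'⟩ := h1 p hp2 f H g₀ hfm hcop' (by
      rw [Polynomial.map_sub, Polynomial.map_pow]; exact hg)
    have e1 := Polynomial.map_dvd ι hg'
    rw [Polynomial.map_sub, Polynomial.map_pow] at e1
    have e2 := passOn (f.map ι) (h.map (algebraMap ℚ ℚ_[p])) (H.map ι) G G' 1 (g'.map ι) hG1 hG2
      (by rw [one_mul]; exact e1)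
    rw [one_mul, hfι] at e2
    exact ⟨_, e2⟩
  · right
    obtain ⟨g₀, rfl⟩ := hsurj g
    obtain ⟨x₀, rfl⟩ := ZMod.ringHom_surjective φ x
    obtain ⟨y₀, rfl⟩ := ZMod.ringHom_surjective φ y
    -- the point over `ℤ_p`
    set c : ℤ_[p] := x₀ ^ 3 + ((a * D ^ 2 : ℤ) : ℤ_[p]) * x₀ + ((b * D ^ 3 : ℤ) : ℤ_[p]) with hc'
    have hcφ : φ c = φ y₀ ^ 2 := by
      rw [hc', hxy]
      simp only [map_add, map_mul, map_pow, map_intCast]
    have hcne : φ c ≠ 0 := by rw [hcφ]; exact pow_ne_zero 2 hy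
    obtain ⟨k, hk⟩ := h1 p hp2 X (C c) (C y₀) monic_X (by
      rw [Polynomial.map_C, Polynomial.map_X]
      refine ⟨C (φ c)⁻¹, 0, ?_⟩
      rw [zero_mul, add_zero, ← C_mul, inv_mul_cancel₀ hcne, C_1]) (by
      rw [Polynomial.map_sub, Polynomial.map_pow, Polynomial.map_C, Polynomial.map_C, ← C_pow,
        ← C_sub]
      change _ ∣ C (φ c - φ y₀ ^ 2)
      rw [hcφ, sub_self, C_0]
      exact dvd_zero _)
    have hk2 : c = (k.eval 0) ^ 2 := by
      obtain ⟨w, hw⟩ := hk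
      have := congrArg (Polynomial.eval 0) hw
      simp only [eval_sub, eval_C, eval_pow, eval_mul, eval_X, zero_mul] at this
      exact sub_eq_zero.1 this
    have hyne : k.eval 0 ≠ 0 := by
      intro h0
      apply hcne
      rw [hk2, h0]
      simp
    obtain ⟨g', hg'⟩ := h1 p hp2 f ((C x₀ - X) * H) g₀ hfm (by
      rw [Polynomial.map_mul, Polynomial.map_sub, Polynomial.map_C, Polynomial.map_X]
      refine IsCoprime.mul_left (coprime_lin _ _ ?_) hcop'
      change (f.map φ).eval (φ x₀) ≠ 0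
      rw [hfφ]
      simp only [eval_add, eval_mul, eval_pow, eval_X, eval_C]
      rw [← hxy]
      exact pow_ne_zero 2 hy) (by
      rw [Polynomial.map_sub, Polynomial.map_pow, Polynomial.map_mul, Polynomial.map_sub,
        Polynomial.map_C, Polynomial.map_X]
      exact hg)
    have e1 := Polynomial.map_dvd ι hg'
    rw [Polynomial.map_sub, Polynomial.map_pow, Polynomial.map_mul, Polynomial.map_sub,
      Polynomial.map_C, Polynomial.map_X] at e1
    have e2 := passOn (f.map ι) (h.map (algebraMap ℚ ℚ_[p])) (H.map ι) G G' (C (ι x₀) - X)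
      (g'.map ι) hG1 hG2 e1
    rw [hfι] at e2
    refine ⟨ι x₀, ι (k.eval 0), ?_, ?_, _, e2⟩
    · rw [Ne, map_eq_zero_iff ι hιinj]
      exact hyne
    · rw [← map_pow, ← hk2, hc']
      simp only [map_add, map_mul, map_pow, map_intCast]

end Pool.Agent.H553.AR458
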